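import Pool.Agent.W761.CP.Defs

/-!
# Project CP: the Leibniz rule for weak gradients
-/

set_option autoImplicit false

open MeasureTheory
open scoped ENNReal FourierTransform SchwartzMap InnerProductSpace ContDiff LineDeriv

namespace Pool.Agent.W503.CP
open Pool.Agent.Helper209.CX (Ed L2d)
open Pool.Agent.W761.CP

theorem memLp_mul {d : ℕ} {χ : Ed d → ℝ} (hc : Continuous χ) {C : ℝ} (hC : ∀ x, ‖χ x‖ ≤ C)
    (u : L2d d) : MemLp (fun x => (χ x : ℂ) * u x) 2 volume := by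
  refine MemLp.of_le_mul (c := C) (Lp.memLp u) ?_ (Filter.Eventually.of_forall fun x => ?_)
  · exact ((Complex.continuous_ofReal.comp hc).aestronglyMeasurable).mul
      (Lp.aestronglyMeasurable u)
  · rw [norm_mul, Complex.norm_real]
    exact mul_le_mul_of_nonneg_right (hC x) (norm_nonneg _)

theorem mulR_ae {d : ℕ} {χ : Ed d → ℝ} (hc : Continuous χ) {C : ℝ} (hC : ∀ x, ‖χ x‖ ≤ C)
    (u : L2d d) : (mulR χ u : Ed d → ℂ) =ᵐ[volume] fun x => (χ x : ℂ) * u x := by
  have h := memLp_mul hc hC u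
  unfold mulR
  rw [dif_pos h]
  exact h.coeFn_toLp

theorem mul_bound {d : ℕ} {χ : Ed d → ℝ} (hχ : Mul χ) : ∃ C : ℝ, ∀ x, ‖χ x‖ ≤ C := by
  obtain ⟨c, hc⟩ := hχ.supp
  obtain ⟨C, hC⟩ := hc.exists_bound_of_continuous (hχ.smooth.continuous.sub continuous_const)
  refine ⟨C + ‖c‖, fun x => ?_⟩
  have h1 : χ x = (χ x - c) + c := by ring
  rw [h1]
  exact (norm_add_le _ _).trans (add_le_add_left (hC x) _)

theorem pd_cont {d : ℕ} {χ : Ed d → ℝ} (hχ : Mul χ) (k : Fin d) : Continuous (pd k χ) := by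
  unfold pd
  exact (hχ.smooth.continuous_fderiv (by norm_num)).clm_apply continuous_const

theorem pd_bound {d : ℕ} {χ : Ed d → ℝ} (hχ : Mul χ) (k : Fin d) :
    ∃ C : ℝ, ∀ x, ‖pd k χ x‖ ≤ C := by
  obtain ⟨c, hc⟩ := hχ.supp
  have h1 : HasCompactSupport (pd k χ) := by
    have h2 := hc.fderiv_apply (𝕜 := ℝ) (ev k)
    have h3 : (fun x => fderiv ℝ (fun x => χ x - c) x (ev k)) = pd k χ := by
      funext x
      rw [fderiv_sub_const]
      rfl
    rwa [h3] at h2
  exact h1.exists_bound_of_continuous (pd_cont hχ k)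

theorem lei : S_LEI := by
  intro d χ u g hχ hg φ k
  obtain ⟨C0, hC0⟩ := mul_bound hχ
  obtain ⟨C1, hC1⟩ := pd_bound hχ k
  have hcont : Continuous χ := hχ.smooth.continuous
  obtain ⟨c, hc⟩ := hχ.supp
  -- the test function
  have hs : ContDiff ℝ ∞ (fun x : Ed d => (((χ x - c : ℝ)) : ℂ) * φ x) := by
    refine ContDiff.mul ?_ (φ.smooth (⊤ : ℕ∞))
    exact Complex.ofRealCLM.contDiff.comp (hχ.smooth.sub contDiff_const)
  have hcs : HasCompactSupport (fun x : Ed d => (((χ x - c : ℝ)) : ℂ) * φ x) := by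
    have h1 : HasCompactSupport (fun x : Ed d => (((χ x - c : ℝ)) : ℂ)) :=
      hc.comp_left (g := fun r : ℝ => (r : ℂ)) Complex.ofReal_zero
    exact h1.mul_right
  obtain ⟨ψ, hψ⟩ : ∃ ψ : 𝓢(Ed d, ℂ), ψ = hcs.toSchwartzMap hs + (c : ℂ) • φ := ⟨_, rfl⟩
  have hψ1 : ∀ x, ψ x = (χ x : ℂ) * φ x := by
    intro x
    rw [hψ]
    show (((χ x - c : ℝ)) : ℂ) * φ x + (c : ℂ) * φ x = _
    push_cast
    ring
  have hψ2 : ∀ x, fderiv ℝ (fun y => ψ y) x (ev k) =
      (χ x : ℂ) * fderiv ℝ (fun y => φ y) x (ev k) + (pd k χ x : ℂ) * φ x := by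
    intro x
    have e1 : (fun y => ψ y) = fun y => (χ y : ℂ) * φ y := funext hψ1
    have e2 : HasFDerivAt (fun y : Ed d => (χ y : ℂ))
        (Complex.ofRealCLM.comp (fderiv ℝ χ x)) x :=
      Complex.ofRealCLM.hasFDerivAt.comp x
        ((hχ.smooth.differentiable (by norm_num)) x).hasFDerivAt
    have e3 : HasFDerivAt (fun y : Ed d => φ y) (fderiv ℝ (fun y => φ y) x) x :=
      φ.hasFDerivAt x
    have e4 : HasFDerivAt (fun y : Ed d => (χ y : ℂ) * φ y) _ x := e2.mul e3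
    rw [e1, e4.fderiv]
    simp only [pd, ContinuousLinearMap.add_apply, ContinuousLinearMap.smul_apply,
      ContinuousLinearMap.comp_apply, Complex.ofRealCLM_apply, smul_eq_mul]
    ring
  have hmain := hg ψ k
  have hu1 := memLp_mul hcont hC0 u
  have hu2 := memLp_mul (pd_cont hχ k) hC1 u
  have hg1 := memLp_mul hcont hC0 (g k)
  have hφ : MemLp (fun x => φ x) 2 volume := φ.memLp 2 volume
  have hφ' : MemLp (fun x => fderiv ℝ (fun y => φ y) x (ev k)) 2 volume :=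
    (∂_{ev k} φ).memLp 2 volume
  have i1 : Integrable (fun x => ((χ x : ℂ) * u x) * fderiv ℝ (fun y => φ y) x (ev k)) volume :=
    hu1.integrable_mul hφ'
  have i2 : Integrable (fun x => ((pd k χ x : ℂ) * u x) * φ x) volume := hu2.integrable_mul hφ
  have i3 : Integrable (fun x => ((χ x : ℂ) * g k x) * φ x) volume := hg1.integrable_mul hφ
  have l1 : ∫ x, u x * fderiv ℝ (fun y => ψ y) x (ev k) =
      ∫ x, (((χ x : ℂ) * u x) * fderiv ℝ (fun y => φ y) x (ev k) +
        ((pd k χ x : ℂ) * u x) * φ x) := by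
    refine integral_congr_ae (Filter.Eventually.of_forall fun x => ?_)
    show u x * fderiv ℝ (fun y => ψ y) x (ev k) = _
    rw [hψ2 x]
    ring
  have l2 : ∫ x, g k x * ψ x = ∫ x, ((χ x : ℂ) * g k x) * φ x := by
    refine integral_congr_ae (Filter.Eventually.of_forall fun x => ?_)
    show g k x * ψ x = _
    rw [hψ1 x]
    ring
  rw [l1, l2, integral_add i1 i2] at hmain
  have r1 : ∫ x, mulR χ u x * fderiv ℝ (fun y => φ y) x (ev k) =
      ∫ x, ((χ x : ℂ) * u x) * fderiv ℝ (fun y => φ y) x (ev k) := by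
    refine integral_congr_ae ?_
    filter_upwards [mulR_ae hcont hC0 u] with x hx
    rw [hx]
  have r2 : ∫ x, ((mulR χ (g k) + mulR (pd k χ) u : L2d d) : Ed d → ℂ) x * φ x =
      ∫ x, (((χ x : ℂ) * g k x) * φ x + ((pd k χ x : ℂ) * u x) * φ x) := by
    refine integral_congr_ae ?_
    filter_upwards [Lp.coeFn_add (mulR χ (g k)) (mulR (pd k χ) u), mulR_ae hcont hC0 (g k),
      mulR_ae (pd_cont hχ k) hC1 u] with x h1 h2 h3
    rw [h1, Pi.add_apply, h2, h3]
    ring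
  show ∫ x, mulR χ u x * fderiv ℝ (fun y => φ y) x (ev k) =
    -∫ x, ((mulR χ (g k) + mulR (pd k χ) u : L2d d) : Ed d → ℂ) x * φ x
  rw [r1, r2, integral_add i3 i2]
  linear_combination hmain

end Pool.Agent.W503.CP
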